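import Pool.Agent.TH281.DW.Final

/-!
# Damped waves on the flat 2-torus decay faster than `t^(-1/2)`

The torus `ℝ²/(2πℤ)²` is modelled by `UnitAddTorus (Fin 2) = (ℝ/ℤ)²`: the class of `s` stands
for the point `x = 2π s`.  The character `exp (i k·x)` is `chr k = UnitAddTorus.mFourier k`, so that
`-Δ` (Laplacian in the variable `x`) is the Fourier multiplier `|k|² = k₀² + k₁²`.
The measure `haar` is the normalised one (total mass one instead of `(2π)²`); this multiplies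
energies and squared Sobolev norms by the same factor.

The first definitions are written for a general measure space `X` with measure `μ` and a family
`e k`, `k ∈ ℤ²`, of functions on `X`; in the theorem they are used for the torus with the measure
`haar` and the characters `chr k`.
-/

set_option autoImplicit false

open MeasureTheory Set

namespace Pool.Agent.Results.MP_4ccfbf_an.DecayOnTorus

noncomputable section

/-- the frequency `|k| = (k₀² + k₁²)^(1/2)` -/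
def freq (k : Fin 2 → ℤ) : ℝ := Real.sqrt ((k 0 : ℝ) ^ 2 + (k 1 : ℝ) ^ 2)

section General

variable {X : Type} [MeasurableSpace X] (μ : Measure X) (e : (Fin 2 → ℤ) → X → ℂ)

/-- Fourier coefficients `û(k) = ∫ e_{-k} u`, `k ∈ ℤ²` -/
def hat (u : Lp ℂ 2 μ) (k : Fin 2 → ℤ) : ℂ := ∫ x, e (-k) x * u x ∂μ

/-- `g = |∇| u = (-Δ)^(1/2) u` (in particular `u ∈ H¹`) -/
def IsAbsGrad (u g : Lp ℂ 2 μ) : Prop := ∀ k, hat μ e g k = (freq k : ℂ) * hat μ e u k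

/-- `g = -Δ u` (in particular `u ∈ H²`) -/
def IsNegLaplacian (u g : Lp ℂ 2 μ) : Prop :=
  ∀ k, hat μ e g k = ((freq k ^ 2 : ℝ) : ℂ) * hat μ e u k

/-- `u ∈ H^s` -/
def InH (s : ℕ) (u : Lp ℂ 2 μ) : Prop := Summable fun k => (1 + freq k ^ 2) ^ s * ‖hat μ e u k‖ ^ 2

/-- the squared `H^s` norm of `u ∈ H^s` -/
def hSq (s : ℕ) (u : Lp ℂ 2 μ) : ℝ := ∑' k, (1 + freq k ^ 2) ^ s * ‖hat μ e u k‖ ^ 2

/-- `‖∇u‖²` in `L²` -/
def gradSq (u : Lp ℂ 2 μ) : ℝ := ∑' k, freq k ^ 2 * ‖hat μ e u k‖ ^ 2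

/-- the energy `½ (‖∇u‖² + ‖v‖²)`, `v = ∂ₜu` -/
def energy (u v : Lp ℂ 2 μ) : ℝ := (gradSq μ e u + ‖v‖ ^ 2) / 2

/-- `u` is the classical solution of `∂ₜ²u - Δu + b ∂ₜu = 0` for times `t ≥ 0`, with `v = ∂ₜu`,
`Gu = |∇|u`, `Gv = |∇|v`, `Lu = -Δu` and `bv = b v`. -/
structure Sol (b : X → ℝ) (u v Gu Gv Lu bv : ℝ → Lp ℂ 2 μ) : Prop where
  gu : ∀ t, 0 ≤ t → IsAbsGrad μ e (u t) (Gu t)
  gv : ∀ t, 0 ≤ t → IsAbsGrad μ e (v t) (Gv t)
  lu : ∀ t, 0 ≤ t → IsNegLaplacian μ e (u t) (Lu t)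
  hbv : ∀ t, 0 ≤ t → ∀ᵐ x ∂μ, bv t x = (b x : ℂ) * v t x
  du : ∀ t, 0 ≤ t → HasDerivWithinAt u (v t) (Ici 0) t
  dgu : ∀ t, 0 ≤ t → HasDerivWithinAt Gu (Gv t) (Ici 0) t
  dv : ∀ t, 0 ≤ t → HasDerivWithinAt v (-(Lu t) - bv t) (Ici 0) t
  cgv : ContinuousOn Gv (Ici 0)
  clu : ContinuousOn Lu (Ici 0)

/-- `u` is the classical solution of `∂ₜ²u - Δu + b ∂ₜu = 0` on `[0,∞) × 𝕋²`, with `v = ∂ₜu`:
`u ∈ C([0,∞);H²) ∩ C¹([0,∞);H¹) ∩ C²([0,∞);L²)`. -/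
def IsSolution (b : X → ℝ) (u v : ℝ → Lp ℂ 2 μ) : Prop :=
  ∃ Gu Gv Lu bv : ℝ → Lp ℂ 2 μ, Sol μ e b u v Gu Gv Lu bv

/-- for all data `(u₀,u₁) ∈ H² × H¹` there is exactly one solution -/
def WellPosed (b : X → ℝ) : Prop :=
  ∀ u₀ u₁ : Lp ℂ 2 μ, InH μ e 2 u₀ → InH μ e 1 u₁ →
    ∃ u v : ℝ → Lp ℂ 2 μ, IsSolution μ e b u v ∧ u 0 = u₀ ∧ v 0 = u₁ ∧
      ∀ u' v' : ℝ → Lp ℂ 2 μ, IsSolution μ e b u' v' → u' 0 = u₀ → v' 0 = u₁ →
        ∀ t, 0 ≤ t → u' t = u t ∧ v' t = v t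

/-- decay at rate `f`: `E(u,t) ≤ C f(t)² (‖u₀‖²_{H²} + ‖u₁‖²_{H¹})` for all `t > 0` and all
solutions -/
def DecaysAt (b : X → ℝ) (f : ℝ → ℝ) : Prop :=
  ∃ C : ℝ, 0 < C ∧ ∀ u v : ℝ → Lp ℂ 2 μ, IsSolution μ e b u v → ∀ t, 0 < t →
    energy μ e (u t) (v t) ≤ C * f t ^ 2 * (hSq μ e 2 (u 0) + hSq μ e 1 (v 0))

end General

/-- The normalised Haar measure (total mass one) on the torus `(ℝ/ℤ)²`. -/
def haar : Measure (UnitAddTorus (Fin 2)) := Measure.pi fun _ => AddCircle.haarAddCircle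

/-- The characters of the torus. -/
def chr (k : Fin 2 → ℤ) (x : UnitAddTorus (Fin 2)) : ℂ := UnitAddTorus.mFourier k x

/-- The damping functions of the problem: (a representative of) `b ∈ L^∞(𝕋²)` with `b ≥ 0` almost
everywhere and `b ≥ c > 0` almost everywhere on some nonempty open set `U`. -/
structure RoughDamping (b : UnitAddTorus (Fin 2) → ℝ) : Prop where
  measurable : AEMeasurable b haar
  bounded : ∃ M : ℝ, ∀ᵐ x ∂haar, b x ≤ M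
  nonneg : ∀ᵐ x ∂haar, 0 ≤ b x
  lower : ∃ U : Set (UnitAddTorus (Fin 2)), IsOpen U ∧ U.Nonempty ∧
    ∃ c : ℝ, 0 < c ∧ ∀ᵐ x ∂haar, x ∈ U → c ≤ b x

theorem isSolution_iff (b : UnitAddTorus (Fin 2) → ℝ) (u v : ℝ → Lp ℂ 2 haar) :
    IsSolution haar chr b u v ↔ Pool.Agent.W805.DampedTorus.IsSolution b u v := by
  constructor
  · rintro ⟨Gu, Gv, Lu, bv, h⟩
    exact ⟨Gu, Gv, Lu, bv, h.gu, h.gv, h.lu, h.hbv, h.du, h.dgu, h.dv, h.cgv, h.clu⟩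
  · rintro ⟨Gu, Gv, Lu, bv, h1, h2, h3, h4, h5, h6, h7, h8, h9⟩
    exact ⟨Gu, Gv, Lu, bv, ⟨h1, h2, h3, h4, h5, h6, h7, h8, h9⟩⟩

theorem hSq_two (u : Lp ℂ 2 haar) : hSq haar chr 2 u = Pool.Agent.W805.DampedTorus.h2Sq u := rfl

theorem hSq_one (u : Lp ℂ 2 haar) : hSq haar chr 1 u = Pool.Agent.W805.DampedTorus.h1Sq u := by
  unfold hSq Pool.Agent.W805.DampedTorus.h1Sq
  simp only [pow_one]
  rfl

theorem inH_one (u : Lp ℂ 2 haar) : InH haar chr 1 u ↔ Pool.Agent.W805.DampedTorus.InH1 u := by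
  unfold InH Pool.Agent.W805.DampedTorus.InH1
  simp only [pow_one]
  rfl

/-- Every bounded nonnegative damping `b` on the flat torus `𝕋²` with `b ≥ c > 0` on some nonempty
open set gives decay of the damped wave equation at rate `t^(-α)` for some `α > 1/2`. -/
theorem result (b : UnitAddTorus (Fin 2) → ℝ) (hb : RoughDamping b) :
    WellPosed haar chr b ∧ ∃ α : ℝ, 1 / 2 < α ∧ DecaysAt haar chr b (fun t => t ^ (-α)) := by
  obtain ⟨hm, ⟨M, hM⟩, h0, U, hU, hne, c, hc, hcU⟩ := hb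
  obtain ⟨hw, α, hα, C, hC, hs⟩ := Pool.Agent.TH281.DW.main_ae hm hM h0 hU hne hc hcU
  refine ⟨fun u₀ u₁ g0 g1 => ?_, α, hα, C, hC, fun u v huv t ht => ?_⟩
  · obtain ⟨u, v, h1, h2, h3, h4⟩ := hw u₀ u₁ g0 ((inH_one u₁).1 g1)
    exact ⟨u, v, (isSolution_iff b u v).2 h1, h2, h3,
      fun u' v' h => h4 u' v' ((isSolution_iff b u' v').1 h)⟩
  · have h1 := hs u v ((isSolution_iff b u v).1 huv) t ht
    rw [hSq_two, hSq_one]
    exact h1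

end

end Pool.Agent.Results.MP_4ccfbf_an.DecayOnTorus
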